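import Pool.Agent.R903.AlgCoh

/-!
# The conjectures of Murre for varieties with algebraic cohomology

Let `X` be a variety of a class `𝒱` of smooth projective varieties over a field which is closed
under products, with Chow groups `C` (rational coefficients) and a Weil cohomology theory `W`, and
suppose that the cohomology of `X` is spanned by classes of algebraic cycles. The complex surfaces
with this property are those with `p_g = q = 0`, and then Bloch's conjecture for `X` says that the
cycle class map is injective on `CH^2(X) = CH_0(X)`.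

* `X` has a Chow–Künneth decomposition.
* For each `i` the following are equivalent: the cycle class map is injective on `CH^i(X)`; the
  group `F^k CH^i(X)` is independent of the Chow–Künneth decomposition of `X` for all `k`; the group
  `F^1 CH^i(X)` is independent of the decomposition; `F^(i+1) CH^i(X) = 0` for all decompositions;
  `F^1 CH^i(X)` is the kernel of the cycle class map for all decompositions.
* In particular the cycle class map is injective on `CH^i(X)` for all `i` if and only if one of the
  conjectures (B), (C), (D) of Murre holds for `X`, and then all of them hold.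
* The following are equivalent: the cycle class map is injective on the Chow groups of `X × X`; it is
  injective on `CH^(dim X)(X × X)`; `X` has no phantoms (nonzero idempotent correspondences which act
  as zero on the cohomology); `F^0 CH^(dim X)(X × X)` is independent of the Chow–Künneth
  decomposition of `X × X`; Murre's conjecture (C) holds for `X × X`. Then the cycle class map is
  injective on the Chow groups of `X`.
-/

open Pool.Agent.H914 Pool.Agent.R903

universe u v w

namespace Pool.Agent.Results.MP_38de51_ag.AlgebraicCohomology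

theorem result {k : Type u} [Field k] {𝒱 : VarClass k} {C : ChowTheory.{u, v} 𝒱}
    (W : WeilTheory.{u, v, w} C) (hP : C.Polarized) (X : 𝒱.Obj) (hX : W.AlgebraicCohomology X) :
    W.HasCK X ∧
    (∀ i, List.TFAE [W.ClInjective X i, ∀ l, W.Indep X i l, W.Indep X i 1,
      ∀ π, W.IsCK X π → C.ckFil π i (i + 1) = ⊥, ∀ π, W.IsCK X π → W.FirstIsKernel π i]) ∧
    List.TFAE [∀ i, W.ClInjective X i, W.MurreB X, W.MurreC X, W.MurreD X] ∧
    List.TFAE [∀ i, W.ClInjective (X.prod X) i, W.ClInjective (X.prod X) X.dim, W.NoPhantoms X,
      W.Indep (X.prod X) X.dim 0, W.MurreC (X.prod X)] ∧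
    ((∀ i, W.ClInjective (X.prod X) i) → ∀ i, W.ClInjective X i) := by
  have hi := fun i => hX.tfae hP i
  refine ⟨?_, hi, ?_, hX.motive_tfae hP, WeilTheory.clInjective_of_square⟩
  · obtain ⟨_, -, -, -, -, hσ⟩ := hX.exists_phantom
    obtain ⟨σ, hσ1, -⟩ := hσ 0 (Nat.zero_le _)
    exact ⟨σ, hσ1⟩
  · have h01 : ∀ i, W.ClInjective X i ↔ ∀ l, W.Indep X i l := fun i => (hi i).out 0 1
    have h03 : ∀ i, W.ClInjective X i ↔ ∀ π, W.IsCK X π → C.ckFil π i (i + 1) = ⊥ := fun i =>
      (hi i).out 0 3
    have h04 : ∀ i, W.ClInjective X i ↔ ∀ π, W.IsCK X π → W.FirstIsKernel π i := fun i =>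
      (hi i).out 0 4
    tfae_have 1 → 2 := by
      intro h π hπ i
      refine ⟨?_, (h03 i).1 (h i) π hπ⟩
      ext x
      rw [(h i).mem_ckFil_iff hπ]
      exact ⟨fun h1 => h1.1, fun h1 => ⟨h1, fun h2 => absurd h2 (lt_irrefl 0)⟩⟩
    tfae_have 2 → 1 := fun h i => (h03 i).2 fun π hπ => (h π hπ i).2
    tfae_have 1 → 3 := fun h i => (h01 i).1 (h i)
    tfae_have 3 → 1 := fun h i => (h01 i).2 (h i)
    tfae_have 1 → 4 := fun h π hπ i => (h04 i).1 (h i) π hπ
    tfae_have 4 → 1 := fun h i => (h04 i).2 fun π hπ => h π hπ i
    tfae_finish

end Pool.Agent.Results.MP_38de51_ag.AlgebraicCohomology
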