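import Pool.Agent.R900.EX.DT
import Pool.Agent.R900.PT.Murre

/-!
# Murre's conjectures for motives of varieties generated by powers of abelian varieties with a doubly
# transitive Galois group

Let `q = p ^ a` and let `f` be an irreducible rational polynomial of degree `2 g` all of whose complex
roots have absolute value `√q` (the minimal polynomial of a Weil number, if it has integral
coefficients). Let `slope α` be the valuation of a root `α` of `f` in the algebraic closure of `ℚ_p`, with
`slope q = 1`. We assume (`IsDTPoly`):

* the Galois group of `f` is doubly transitive on the `g` numbers `x + q / x`, `x` a root of `f`, and not
  all slopes are `1 / 2`;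
* `g` is odd, or `g - 1` is one or a prime number, or the Galois group is triply transitive on these
  numbers, or the numbers `N (2 slope - 1)` are, for some `N > 0`, integers whose sums over all half systems
  (one root out of each pair `{α, q / α}`) are odd (`OddDeviations`);
* if `K = ℚ[X] / (f)` contains an imaginary quadratic field `E`, then for each embedding of `E` in the
  algebraic closure of `ℚ_p` the slopes of the roots over this embedding are not all equal and their mean
  is not `1 / 2` (`QuadraticSlopes`).

For example all this holds if `g` is odd, the Galois group is doubly transitive, `A` is not
supersingular and `K` does not contain an imaginary quadratic field. There is no condition on the slopes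
apart from these (`A` need not be ordinary or almost ordinary), and no bound for `g`.

`Homology Ω V` are data of motivic homology `M X n j = H_n^M(X, ℚ(j)) = CH_j(X, n - 2 j) ⊗ ℚ` (higher
Chow groups) and of `ℓ`-adic homology `E X n j = H_n(X, Ω(j))`, `Ω` an algebraic closure of `ℚ_ℓ`, of
schemes `X : V` of finite type over finite fields, with the Frobenius and the regulator. Let `𝒢` (`Generated`) be the smallest class of
schemes that contains all abelian varieties `X`, over a finite field with `q ^ s` elements, that are
isogenous to a power of an abelian variety `A` over the field with `q` elements whose Frobenius has as
characteristic polynomial a power of such an `f` (`IsDT`), that is closed under direct summands of finite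
sums of twists of motives, and that contains all of a closed subscheme `Z` of `X`, `X` and `X ∖ Z` if it
contains two of them. For example, it contains with the Jacobian of a curve `C` all powers of `C`, its
symmetric powers, the quotients of these varieties by finite groups, and the open subschemes that one
obtains from them by removing members of `𝒢`.

**Theorem.** Murre's conjectures (B), (C) and (D) hold for all motives `M = (X, q, n)` with `X` smooth and
projective in `𝒢`: for all Chow–Künneth decompositions `M = ⊕ M_i` the group `CH_l(M_i)` is zero for
`i < 2 l`, the homologically trivial elements of `CH_l(M_(2 l))` are zero, and the filtration
`F^ν CH_l(M)` is the same for all decompositions. If `X × X` belongs to `𝒢`, too, then (A) holds: `M` has a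
Chow–Künneth decomposition.

`Corr T X XX d` are data of the correspondences from `X` to `X` of degree zero, the elements of
`CH_d(X × X) ⊗ ℚ` where `d` is the dimension of `X` and `XX = X × X`, and of their actions on the groups
`CH_l(X) ⊗ ℚ = M X (2 l) l` and on the `ℓ`-adic homology; `IsCorr` are their formal properties. A motive
is a triple `(X, q, n)` with an idempotent correspondence `q`; its Chow groups are
`CH_l(M) = q CH_(l - n)(X)`.
`IsKunneth`, which is only used for (A), is the Künneth formula (a correspondence that acts as zero on
the cohomology is homologically trivial), and the theorem of Katz and Messing that the Künneth components
of the diagonal are algebraic. The conjectures (B) and (D) are proved for all Chow–Künneth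
decompositions. Moreover two Chow–Künneth decompositions of `M` are equal if `X × X` belongs to `𝒢`.

Properties that are used for the abelian varieties `X`. `IsCyc`: Poincaré duality, the formal properties
of correspondences, Deligne's theorem, the nilpotence of homologically trivial correspondences (Kimura),
the operation of the Frobenius endomorphism on higher Chow groups (Soulé) and the vanishing of the higher
rational `K`-groups of a finite field (Quillen). `IsPowerOver`: the cohomology ring of `X` is the exterior
algebra of `W = H^1(X, Ω)`, on which the Frobenius is `F ^ s`, `F` the semisimple Frobenius over the field
with `q` elements, whose eigenvalues are roots of `f`; the Frobenius is semisimple (Weil), and Tate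
classes of degree two are linear combinations of classes of divisors (Tate). That all Tate classes of
these varieties, of all degrees and over all finite extensions, are polynomials in those of degree two
was proved in the starting file `MP_950c68_ag.DoublyTransitive`. The passage from there to all
degrees of the motivic homology and to the class `𝒢` (`tb_dt`, in `Pool/Agent/R900/EX/DT.lean`) is due to
Soulé, Geisser, Kahn and Jannsen.
-/

set_option autoImplicit false

namespace Pool.Agent.Results.MP_38de51_ag.DoublyTransitivePowers

open Pool.Agent.W495.FM Pool.Agent.R900.EX Pool.Agent.R900.PT

/-- Murre's conjectures for the motives of the smooth and projective members of the class generated by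
the powers of abelian varieties with a doubly transitive Galois group. -/
theorem result (Ω : Type) [Field Ω]
    [IsAlgClosed Ω] [CharZero Ω] (V : Type) (T : Homology Ω V) (hT : IsHomology T) (X XX : V) (d : ℤ)
    (hX : Generated T (IsDT T) X) (c : Corr T X XX d) (hc : IsCorr c)
    (q : T.M XX (2 * d) d) (hq : IsMotive c q) (n : ℤ) :
    MurreB c q n ∧ MurreC c q n ∧ MurreD c q n ∧
      (Generated T (IsDT T) XX → IsKunneth c → MurreA c q n) :=
  ⟨murreB hT (tb_dt hT hX) hc, murreC hT (tb_dt hT hX) hc, murreD (tb_dt hT hX),
    fun hXX hk => murreA (tb_dt hT hXX) hc hk hq⟩

end Pool.Agent.Results.MP_38de51_ag.DoublyTransitivePowers
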