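import Pool.Agent.R904.MSum

/-!
# Direct summands of motives with at most one unknown piece

`𝒱` is a class of smooth projective geometrically irreducible varieties over the field `k` closed
under products (for example all of them), `C` the Chow groups with rational coefficients (in the
form of their formal properties, `IsChowProj`) and `H` a Weil cohomology theory (`IsWeilProj`).

Let `M = (Y, e)` be a motive with a Chow-Kunneth decomposition `M = ⊕ M_i` such that the
homologically trivial endomorphisms of `M_i` are nilpotent for all `i` but one, about which nothing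
is assumed. Then every direct summand `N` of a Tate twist `M(r)` has a Chow-Kunneth decomposition
`N = ⊕ N_m` where `N_m` is a direct summand of `M_(m + 2 r)(r)`. In particular, if the decomposition
of `M` satisfies the conjectures (B) and (D) of Murre, then so does the decomposition of `N`.

For the motive of a surface over any field the pieces other than the second one are
finite-dimensional, and Murre's decomposition satisfies (B) and (D): so all direct summands of
motives of surfaces satisfy (A), (B) and (D), although the transcendental motive of the surface is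
not known to be finite-dimensional and a direct summand may cut it arbitrarily.
-/

open CategoryTheory AlgebraicGeometry

set_option autoImplicit false

universe u v w

namespace Pool.Agent.Results.MP_38de51_ag.SummandsOneUnknownPiece

open Pool.Agent.H914 Pool.Agent.W492.BB Pool.Agent.TH133 Pool.Agent.R904 Pool.Agent.W550.Corr

/-- Chow-Kunneth decompositions satisfying (B) and (D), with nilpotence for all pieces but one, are
inherited by direct summands. -/
theorem result {k : Type u} [Field k] {𝒱 : VarClass k} (C : TheoryData.{u, v, 0} 𝒱 ℚ)
    [IsChowProj C] {K : Type w} [Field K] (H : WeilTheoryData.{u, v, w} C K) [IsWeilProj H]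
    (Y : 𝒱.Obj) (e : C.A (Y.prod Y)) (s : Finset ℤ) (π : ℤ → C.A (Y.prod Y))
    (hπ : IsDec H e s π) (w : ℤ) (hnil : ∀ i, i ≠ w → NilMotive H (π i))
    (Z : 𝒱.Obj) (q : C.A (Z.prod Z)) (r : ℤ) (hq : IsSummand C e q r) :
    ∃ (s' : Finset ℤ) (μ : ℤ → C.A (Z.prod Z)), IsDec H q s' μ ∧
      (∀ m, IsSummand C (π (m + 2 * r)) (μ m) r) ∧ (MurreBD H π → MurreBD H μ) := by
  obtain ⟨s', μ, hμ, h⟩ := exists_isDec_summand hπ w hnil hq
  refine ⟨s', μ, hμ, fun m => ?_, fun hBD => murreBD_of_factor hBD h⟩
  obtain ⟨u, v, hu, hv, hm⟩ := h m
  refine isSummand_of_factor (H := H) ?_ (hπ.deg _) ?_ (hμ.deg m) hu hv hm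
  · rw [hπ.comp_eq, if_pos rfl]
  · rw [hμ.comp_eq, if_pos rfl]

end Pool.Agent.Results.MP_38de51_ag.SummandsOneUnknownPiece
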